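import Pool.Agent.LibEQ34.Final

/-!
# MP_29b22a_nt (Beilinson's conjecture): exact ranks of groups of cycles on products of elliptic curves

Let `Qb` be the field of algebraic numbers. For elliptic curves `E`, `E'` over `Qb` and points `P` of
`E` and `Q` of `E'` let `P × Q = (P, Q) - (P, 0) - (0, Q) + (0, 0)`, a zero-cycle on the surface `E × E'`
in the kernel of the Albanese map.

**1. The exact rank.** Let `Γ E` be a subgroup of the group of points of `E`, for every elliptic curve `E`
over `Qb`, such that `P × Q` is torsion in the Chow group for all `E`, `E'` and all `P` in `Γ E`, `Q` in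
`Γ E'` (`PwC Γ`). Let `K` be a subfield of `Qb` (for example a number field) and let `E 1, ..., E n` be
elliptic curves over `K` which are pairwise not isogenous over `Qb`, each of them without complex
multiplications (`NoCM`, over `Qb`) or with a group `Γ E_i` which is preserved by them (`Stb`). Let `A` be
a product of `r` of these curves, possibly with repetitions. Consider the cycles
`c = ∑ m_j (N_j_* B_j + g_j)` of dimension `D` on `A`, `m_j` integers, where `B_j` is a product of `D` of
the curves, `N_j : B_j → A` is any homomorphism over `Qb` and the components of the point `g_j` of `A` are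
in the groups `Γ`. (So `c` is a combination of translates of arbitrary abelian subvarieties of `A`.) Suppose
that `c` is
* defined over `K`: the elements of the Galois group of `K` permute the terms of `c`, for every type
  `B` (they act on `N_j` and on `g_j`);
* homologically trivial: `f_* c` is torsion for all homomorphisms `f` from `A` to the products of `D` of
  the curves.

**The classes of these cycles in the Chow group `CH_D (A)` generate a group of rank exactly**
`∑ i, ∑ T, m (i, T) * rank G (i, T)`, the sum over all `i` and all sets `T` of numbers `l ≠ i`, where
`G (i, T)` is the group of the points `P` of `Γ E_i` with `σ P = ∏ (l ∈ T) χ_l (σ) * P` for all `σ` in the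
Galois group of `K`; `χ_l (σ)` is `1` if `σ` commutes with the endomorphisms of `E l` and `-1` otherwise
(the quadratic character of the field of complex multiplications of `E l`), and
`m (i, T) = ∑ b (i) * ∏ h (l, T)` over `d_1 + ... + d_n = D`, the product over `l ≠ i`, with
* `b (i) = C(r, d) C(r, d + 1) - C(r, d - 1) C(r, d + 2)` for a curve without complex multiplications,
  `C(r, d) C(r, d + 1)` for a curve with complex multiplications (`r = r_i` is the number of the
  factors `E i` of `A` and `d = d_i`);
* `h (l, T) = C(r, d) ^ 2 - C(r, d - 1) C(r, d + 1)`, or `0` for `l ∈ T`, without complex multiplications,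
  `C (C + 1) / 2`, or `C (C - 1) / 2` for `l ∈ T`, where `C = C(r, d)`, with complex multiplications
  (`r = r_l`, `d = d_l`).

(`Ranks`; there `d_l` is the number of the factors `E l` of `B = E (μ 1) × ... × E (μ D)`, with
`μ 1 ≤ ... ≤ μ D`, and `C(r, d - 1)` is written as `C(r, r + 1 - d)`.) For curves without complex
multiplications `T` is empty, `G (i, T)` is `E_i(K) ∩ Γ E_i` and `m (i, T)` is the multiplicity of the
factor `L(E_i, s - p + 1)` in the L-function of `H ^ (2 p - 1) (A)`, `p = r - D`. In general `m (i, T)` is the
multiplicity of the L-function of `E_i` twisted by the character `∏ (l ∈ T) χ_l`. So the formula is the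
one which the conjectures of Beilinson and of Birch and Swinnerton-Dyer predict, for the part of
the group of cycles and of the cohomology which belongs to the groups `Γ`.

**2. Infinitely many curves of rank one.** There is an infinite set `S` of elliptic curves over `ℚ` with
`rank E(ℚ) = 1`, without complex multiplications, pairwise not isogenous over `Qb`, and groups `Γ` with the
property `PwC`, preserved by all homomorphisms, such that `Γ E` contains `E(ℚ)` for all `E` in `S`
simultaneously. **So for all products `A` of members of `S` and all `D` the rank in 1., for `K = ℚ`, is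
exactly `∑ i, m (i, ∅)`, without any hypothesis**: this is the order of vanishing which the conjecture of
Birch and Swinnerton-Dyer predicts for the product of the factors `L(E_i, s - p + 1)` at `s = p`.

**3. Curves of small rank.** Let `E` be an elliptic curve over the number field `K` with
`rank E(K) ≤ 1`, or with complex multiplications defined over `K` and `rank E(K) ≤ 2`. There are groups
`Γ` with the property `PwC`, preserved by all homomorphisms of elliptic curves, such that `Γ E` contains
`E(K)`. So for `A = E ^ r` and all `D` the rank in 1. is exactly `b (E) * rank E(K)`, without any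
hypothesis.

**4. Groups of infinite rank, stable under Galois groups, which contain a given point.** Let
`K` be a number field, `E₀` an elliptic curve over `K` with a `K`-rational point of order two and `P` in
`E₀(K)`. There are saturated groups `Γ W` of infinite rank, for all elliptic curves `W` over `Qb` (`Inf`),
with the property `PwC` of 1., preserved by all homomorphisms, with `P` in `Γ E₀`, such that for all
elliptic curves `E` over `K` the group `Γ E` is stable under the Galois group of `K` (`GalS`).

Outline of the proof of 1. Every endomorphism of `E i` has a multiple `x + y w_i` with integers `x`, `y`,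
where `w_i` is a fixed endomorphism, corresponding to a complex number `ω_i`; the conjugate of `w_i` under
`σ` is `w_i` or its conjugate, according to the sign `χ_i (σ)`. So homomorphisms are, up to multiples, block
matrices over `ℤ[ω_i]`. For sets `I` of `D` rows and `J` of `D + 1` rows let `T_IJ (N, g)` be
`conj (det N_I) det (N | g)_J`, which is a product of numbers of `ℤ[ω_l]`, `l ≠ i`, times a point of `E i`,
where `i` is determined by `J`. Upper bound: by the theorem on cycles of all dimensions (hand-in
AllCodimensions, applied to the groups generated by the images of the points of `Γ`, for one type of `B`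
after the other) a homologically trivial `c` is torsion as soon as all components of the `T_IJ (c)` are
torsion. Lower bound: the converse of this theorem for several types simultaneously. The numbers: the
module spanned by the `T_IJ` decomposes under the complex conjugations of the factors, whose parts
have the signs `T`; its components are, for a curve without complex multiplications, the kernel of the
raising operator of `sl_2` on `Λ ^ d ⊗ Λ ^ d` or `Λ ^ d ⊗ Λ ^ (d + 1)`, and with complex multiplications the
symmetric and the alternating matrices. For 2.: two curves `y ^ 2 = x (x ^ 2 + A x + B)` with the points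
`x = - 2 B / A`; the rank is found by a descent, and infinitely many curves exist by a theorem of
Vinogradov type on sums of primes; they are not isogenous since isogenous curves have potentially good
reduction at the same odd primes, and they have no complex multiplications since endomorphisms preserve
the special points of order two at three places, which are different. For 3.: `2 (P × P) = 0` for every
point `P`.
-/

open WeierstrassCurve Pool.Agent.LibBH2 Pool.Agent.LibIG50 Pool.Agent.LibCHd Pool.Agent.LibGG
  Pool.Agent.LibAC34 Pool.Agent.LibAF11 Pool.Agent.LibEQ34
open scoped Classical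

theorem Pool.Agent.Results.MP_29b22a_nt.ExactRanks.result :
    (∀ Γ : Grid, PwC Γ → ∀ (K : Type) [Field K] [Algebra K Qb], Ranks K Γ) ∧
    (∃ (S : Set (WeierstrassCurve ℚ)) (Γ : Grid), S.Infinite ∧ PwC Γ ∧
      (∀ E E' : WeierstrassCurve Qb, Stb Γ E E') ∧
      (∀ E ∈ S, E.IsElliptic ∧ NoCM (E⁄Qb) ∧ Module.rank ℤ E.toAffine.Point = 1 ∧
        (∀ P : E.toAffine.Point, Mb Γ (constPt Qb P : (E⁄Qb).toAffine.Point)) ∧
        ∀ E' ∈ S, E ≠ E' → ∀ (φ : Hom (E⁄Qb) (E'⁄Qb)) P Q, Sd φ P Q → Q = 0) ∧
      ∀ (n : ℕ) (E : Fin n → WeierstrassCurve ℚ), Function.Injective E → (∀ i, E i ∈ S) →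
        RankIs Γ E fun _ κ D => ∑ i, (mlt E κ D i ∅ : Cardinal)) ∧
    (∀ (K : Type) [Field K] [NumberField K] [Algebra K Qb] (E : WeierstrassCurve K)
      [E.IsElliptic], Module.rank ℤ E.toAffine.Point ≤ 1 ∨
        (¬ NoCM (E⁄Qb) ∧ (∀ σ : Qb ≃ₐ[K] Qb, chi E σ = 1) ∧ Module.rank ℤ E.toAffine.Point ≤ 2) →
      ∃ Γ : Grid, PwC Γ ∧ (∀ E E' : WeierstrassCurve Qb, Stb Γ E E') ∧
        (∀ P : E.toAffine.Point, Mb Γ (constPt Qb P : (E⁄Qb).toAffine.Point)) ∧
        RankIs Γ (fun _ : Fin 1 => E) fun r _ D =>
          (bb E r D : Cardinal) * Module.rank ℤ E.toAffine.Point) ∧
    ∀ (K : Type) [Field K] [NumberField K] [Algebra K Qb] (E₀ : WeierstrassCurve K)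
      [E₀.IsElliptic] (T P : E₀.toAffine.Point), T ≠ 0 → 2 • T = 0 →
      ∃ Γ : Grid, PwC Γ ∧ (∀ E E' : WeierstrassCurve Qb, Stb Γ E E') ∧
        Mb Γ (constPt Qb P : (E₀⁄Qb).toAffine.Point) ∧ Inf Γ ∧ GalS K Γ :=
  Pool.Agent.LibEQ34.exact
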