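import Pool.Agent.LibCW77.RZ7
import Pool.Agent.LibGS7.F

/-!
# MP_29b22a_nt (Beilinson's conjecture): Gross-Schoen cycles of infinite order, for all curves over certain curves

Let `k` be an algebraically closed field of characteristic `0`, `n ≥ 3`, and `a_0, a_1, a_2, b_0, b_1, b_2` six different
elements of `k`. Let `C` be the curve `v ^ n ∏ (x - b_i) = ∏ (x - a_i)`; its genus is `2 n - 2`.

For a smooth projective curve `X` over `k` and a divisor `D` of degree `m` on `X` let `GS_D(X)` be `m ^ 2` times the modified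
diagonal cycle of Gross and Schoen, `m ^ 2 Δ - m (Δ_12 × D + Δ_13 × D + Δ_23 × D) + X × D × D + D × X × D + D × D × X`, a
homologically trivial cycle on `X ^ 3`.

For EVERY smooth projective curve `X` over `k` with a nonconstant map to `C` and EVERY divisor `D` of degree `m ≠ 0` on
`X`, this cycle has infinite order in `CH_1(X ^ 3)`, in each of the following cases (`O` is a valuation ring of `k`).

* `b_i = - a_i`, and
  1. there are an odd prime `p` dividing `n` and an `O` with `p` in its maximal ideal such that `a_0, a_1, a_2`,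
     `a_0 + a_1 + a_2` and `a_0 a_1 + a_0 a_2 + a_1 a_2` are units of `O` (if `n` is even, one of the two sums is enough), or
  2. `4 ∣ n` and there is an `O` with `2` in its maximal ideal such that `(a_i - 1) / 2` is in `O`, or
  3. `a_0, a_1, a_2` are algebraically independent over `ℚ`, or
  4. `3 ∣ n`, `a = (1, α, 1 / α)`, and `α` is transcendental over `ℚ`, or `α` is a rational number, not `-2` and not
     `-1 / 2`.
* `3 ∣ n` and the six numbers are algebraically independent over `ℚ`.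
* `n` is not a power of `3`, `a_i = ω ^ i α`, `b_i = 1 / a_i`, and `n` is even (EVERY `α`), or `1 / (1 - α ^ 6)` is in an `O`
  with `3` in its maximal ideal (this is so if `α` is transcendental over `ℚ`, or if `α ^ 3` is rational and `3` divides its
  numerator or denominator).

If `a_0, a_1, a_2` are integers with different squares and `b = - a`, this is the case if
`a = (1, 1, - 1)` modulo `n` (every `n ≥ 3`), or if `4 ∣ n` and all `a_i` are odd, or if an odd prime divisor of `n` does not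
divide `a_0 a_1 a_2 (a_0 + a_1 + a_2) (a_0 a_1 + a_0 a_2 + a_1 a_2)`.

(`GSIff c False` is the statement for `X = C` and the base point `(a_0, 0)`, with subvarieties of `C ^ 3` in the coordinates
`(x, v)`; `AllInf c` is the statement for all `X` and all `D`.)
-/

namespace Pool.Agent.Results.MP_29b22a_nt.GrossSchoenCovers

open Pool.Agent.LibCW77
open Pool.Agent.LibGS7 (AllInf allInf)

theorem result (k : Type) [Field k] [IsAlgClosed k] [CharZero k] :
    (∀ c : Dat k, c.Good → 3 ≤ c.n →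
      (((∀ i, c.b i = -c.a i) ∧
          ((∃ (p : ℕ) (O : ValuationSubring k), p.Prime ∧ p ≠ 2 ∧ p ∣ c.n ∧ (p : k)⁻¹ ∉ O ∧ (∀ i, IsU O (c.a i)) ∧
              (IsU O (c.a 0 + c.a 1 + c.a 2) ∧ IsU O (c.a 0 * c.a 1 + c.a 0 * c.a 2 + c.a 1 * c.a 2) ∨
                Even c.n ∧ (IsU O (c.a 0 + c.a 1 + c.a 2) ∨
                  IsU O (c.a 0 * c.a 1 + c.a 0 * c.a 2 + c.a 1 * c.a 2)))) ∨
            (4 ∣ c.n ∧ ∃ O : ValuationSubring k, (2 : k)⁻¹ ∉ O ∧ ∀ i, (c.a i - 1) / 2 ∈ O) ∨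
            AlgebraicIndependent ℚ c.a ∨
            (3 ∣ c.n ∧ ∃ α : k, c.a = ![1, α, α⁻¹] ∧
              (Transcendental ℚ α ∨ ∃ q : ℚ, α = (q : k) ∧ q ≠ -2 ∧ q ≠ -1 / 2)))) ∨
        (3 ∣ c.n ∧ AlgebraicIndependent ℚ (Sum.elim c.a c.b)) ∨
        ((∀ j, c.n ≠ 3 ^ j) ∧ ∃ ω α : k, IsPrimitiveRoot ω 3 ∧ c = cov c.n ω α ∧
          (Even c.n ∨ (∃ O : ValuationSubring k, (3 : k)⁻¹ ∉ O ∧ (1 - α ^ 6)⁻¹ ∈ O) ∨ Transcendental ℚ α ∨
            ∃ q : ℚ, α ^ 3 = (q : k) ∧ padicValRat 3 q ≠ 0))) →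
      GSIff c False ∧ AllInf c) ∧
    (∀ (n : ℕ) (t : Fin 3 → ℤ), 3 ≤ n → (∀ i j, i ≠ j → t i ^ 2 ≠ t j ^ 2) →
      (((n : ℤ) ∣ t 0 - 1 ∧ (n : ℤ) ∣ t 1 - 1 ∧ (n : ℤ) ∣ t 2 + 1) ∨ (4 ∣ n ∧ ∀ i, Odd (t i)) ∨
        ∃ p : ℕ, p.Prime ∧ p ≠ 2 ∧ p ∣ n ∧
          ¬ (p : ℤ) ∣ t 0 * t 1 * t 2 * (t 0 + t 1 + t 2) * (t 0 * t 1 + t 0 * t 2 + t 1 * t 2)) →
      (⟨n, fun i => (t i : k), fun i => -(t i : k)⟩ : Dat k).Good ∧
        GSIff (⟨n, fun i => (t i : k), fun i => -(t i : k)⟩ : Dat k) False ∧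
        AllInf (⟨n, fun i => (t i : k), fun i => -(t i : k)⟩ : Dat k)) := by
  refine ⟨?_, ?_⟩
  · intro c hc hn h0
    suffices h1 : GSIff c False from ⟨h1, allInf hc h1⟩
    rcases h0 with ⟨hb, h⟩ | ⟨h3, h⟩ | ⟨h3, ω, α, hω, he, h⟩
    · have hcs := dat_symN hb
      rcases h with ⟨p, O, hp, hp2, hpn, hO, hu, h⟩ | ⟨h4, O, hO, h⟩ | h | ⟨h3, α, ha, h⟩
      · rw [hcs]
        exact gs_symN (t := c.a) (hcs ▸ hc) hp hp2 hpn hO hu h
      · rw [hcs]
        exact gs_symN2 (t := c.a) (hcs ▸ hc) h4 hO h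
      · exact gs_gen hc hn hb h
      · exact gs_fam3 hc h3 hb ha h
    · exact gs_indep3 hc h3 h
    · have hc' := hc
      rw [he] at hc' ⊢
      exact gs_cov hω hn h3 hc' h
  · intro n t hn h1 h
    obtain ⟨h2, h3⟩ := gs_int_all (k := k) hn h1 h
    exact ⟨h2, h3, allInf h2 h3⟩

end Pool.Agent.Results.MP_29b22a_nt.GrossSchoenCovers
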