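import Pool.Agent.LibCW77.Z7
import Pool.Agent.LibSX77.B12
import Pool.Agent.LibSX77.H7

/-!
# MP_29b22a_nt (Beilinson's conjecture): homologically trivial one-cycles on `C ^ 3` and the twisted Jacobian

Let `k` be an algebraically closed field of characteristic `0`, `n ≥ 2`, `a_0, a_1, a_2, b_0, b_1, b_2` six different
elements of `k`, `C` the curve `v ^ n ∏ (x - b_i) = ∏ (x - a_i)` (of genus `2 n - 2`), `ka_i = 1 / F'(a_i)`,
`kb_i = 1 / F'(b_i)`, `F = ∏ (x - a_i) (x - b_i)`, and `ν ^ n = ∏ (- kb_i / ka_i)`. Let `M` be the summand of `h^3(C ^ 3)` which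
is cut out by `μ_n ^ 3` and `S_3` (the parts `(χ, χ, χ)`, `χ ≠ 1`, of `Λ ^ 3 h^1`, rank `4 (n - 1)`), i.e. by the projector
(up to a factor) `prj`. All its cycles are homologically trivial, `M1 c` is `ℚ ⊗ CH_1` of `M`, and `J0 c` is `ℚ ⊗ J(C)(k)`.

1. (Structure theorem.) There is a linear bijection `Ψ` of `J0 c` with `M1 c` with the following properties. If the curve `P` on
   `C ^ 3` is on the line of the point `Q = (z, y)` of `C`: `ka_i (∏ (a_i - x_j)) (a_i - z) + kb_i (∏ (b_i - x_j)) (b_i - z) = 0` for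
   `i = 0, 1, 2` and `(∏ v_j) y = ν` (`Col`), then `prj P = [k(P) : pf P] Ψ (n Q - ∑ τ_z Q)` (`LineP`; `pf P` is generated by the
   ratios of the `∏ (b_i - x_j)`). `Ψ` commutes with all automorphisms `s` of `k` which permute the `a_i` and the `b_i`, by `σ` and
   `τ`, if their action on `J0 c` is twisted by `(x, v) ↦ (x, (ν / s ν) v)` and by `sgn σ sgn τ` (`GalP`).
   If `n = 3`, the small diagonal has the class `- 3 Ψ (∑ (3 Q - Q - τ Q - τ ^ 2 Q))`, the sum over the six points `Q` of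
   the flexes (`DiagP`, `rts`, `Qk`; see 2).
2. `n = 3`: there are exactly six points `x` of the projective line, counted with multiplicity (`rts`), for which there is a
   point `y` with `ka_i (a_i - x) ^ 3 (a_i - y) + kb_i (b_i - x) ^ 3 (b_i - y) = 0` for `i = 0, 1, 2`, and `y` is unique
   (`FlexF`, `Flex`). The cycle `GS` of Gross and Schoen with the base point `(a_0, 0)` is torsion in `CH_1(C ^ 3)` if and only if
   the sum `theta` of the `Q - τ Q` over the six points `Q = (y, ν / v(x) ^ 3)` of `C` (`Qk`) is torsion in `CH_0(C)`.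
3. If `a = (1, α, 1 / α)`, `b = - a` (`fam α`), let `r = - ((α - 1) / (α + 1)) ^ 2` (`rr α`), `E` the elliptic curve
   `y ^ 2 = x ^ 3 + (3 x + 4 (1 - r ^ 2)) ^ 2` (`Er r`), `B = (4 (r ^ 2 - 1), 8 r (r ^ 2 - 1))`, and `MV` the summand of `M1` which is fixed
   by the automorphisms `(x, v) ↦ (1 / x, - v)`, `(- x, 1 / v)` of `C`. There is a homomorphism `Λ : E(k) → MV`; its kernel
   are the torsion points, its image spans `MV`, it commutes with the automorphisms of `k` which fix `α`, and the small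
   diagonal has the class `27 Λ(B)` (`FamF`). `GS` is torsion if and only if `B` is (`TorsB r`). Every `r ≠ 0, 1, -1` of `k` occurs.
4. For `r` in `ℚ` the point `B` is a torsion point if and only if `r = ± 3` or `r = ± 9`. For `r` in `k` with
   `r ^ 2 = - 27` it is a torsion point; it is a torsion point for infinitely many `r` in `k`, and only for algebraic
   numbers `r`. If `B` is a torsion point for `r = rr α` the absolute height of the algebraic number `α` is at most
   `4 * 10 ^ 6` (the logarithmic height is less than `16`), and there are only finitely many such `α` of degree `≤ d` over `ℚ`,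
   for each `d`: up to a finite set depending on `d`, `GS` has infinite order for all curves `fam α` over number fields of
   degree `≤ d`.
5. For `α` in `ℚ`, `α ≠ 0, 1, -1`, the cycle `GS` of the curve
   `v ^ 3 (x + 1) (x + α) (x + 1 / α) = (x - 1) (x - α) (x - 1 / α)` is torsion if and only if `α = - 2` or `α = - 1 / 2`.

Cycles are combinations of closed subvarieties modulo divisors of functions (`Cyc`, `cyc`, `IsDiv`, `RatEq`); a
subvariety is given by a generic point with coordinates in a function field `M` over `k`.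
-/

open scoped Classical
open Polynomial

namespace Pool.Agent.Results.MP_29b22a_nt.GrossSchoenCriterion

open Pool.Agent.LibCW77 Pool.Agent.LibSX77

theorem result (k : Type) [Field k] [IsAlgClosed k] [CharZero k] (ζ : k) (hζ : IsPrimitiveRoot ζ 3) :
    (∀ (c : Dat k) (ν : k), c.Good → ν ^ c.n = ∏ i, (-(kb c i) / ka c i) →
      ∃ Ψ : CHQ c 1 0 →ₗ[ℚ] CHQ c 3 1, Set.BijOn Ψ (J0 c) (M1 c) ∧ LineP c ν Ψ ∧ GalP c ν Ψ ∧
        (c.n = 3 → DiagP c ν Ψ)) ∧
    (∀ (c : Dat k) (ν : k), c.Good → c.n = 3 → ν ^ 3 = ∏ i, (-(kb c i) / ka c i) →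
      FlexF c ν ∧ GSIff c (IsOfFinAddOrder (theta c ζ ν))) ∧
    (∀ α : k, (fam α).Good → (∃ Λ : (Er (rr α)).Point →+ CHQ (fam α) 3 1, FamF α Λ) ∧ GSIff (fam α) (TorsB (rr α))) ∧
    (∀ r : k, r ≠ 0 → r ^ 2 ≠ 1 → ∃ α : k, (fam α).Good ∧ rr α = r) ∧
    (∀ r : ℚ, TorsB (r : k) ↔ r = 3 ∨ r = -3 ∨ r = 9 ∨ r = -9) ∧
    (∀ r : k, r ^ 2 = -27 → TorsB r) ∧
    {r : k | TorsB r}.Infinite ∧
    (∀ r : k, TorsB r → IsAlgebraic ℚ r) ∧
    (∀ α : k, (fam α).Good → TorsB (rr α) → NumberField.absMulHeight₁ α ≤ 4 * 10 ^ 6) ∧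
    (∀ d : ℕ, {α : k | (fam α).Good ∧ TorsB (rr α) ∧ (minpoly ℚ α).natDegree ≤ d}.Finite) ∧
    (∀ c : ℚ, c ≠ 0 → c ≠ 1 → c ≠ -1 → (fam (c : k)).Good ∧ GSIff (fam (c : k)) (c = -2 ∨ c = -1 / 2)) :=
  ⟨fun _ _ hc hν => str_all hc hν, fun _ _ hc h3 hν => gs_crit hc h3 hζ hν, fun _ hc => ⟨fam_all hc, gs_fam hc⟩,
    fun r h0 h1 => exists_alpha r h0 h1, fun r => torsB_rat r, fun _ h => torsB_27 h, torsB_many,
    fun _ h => torsB_alg h, fun _ hg h => fam_height hg h, fun d => fam_deg d, fun _ h0 h1 h2 => gs_famQ h0 h1 h2⟩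

end Pool.Agent.Results.MP_29b22a_nt.GrossSchoenCriterion
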