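import Pool.Agent.LibRF77.Q4

/-!
# MP_29b22a_nt (Beilinson's conjecture): unramified coverings and Gross-Schoen cycles of infinite order

Let `k` be an algebraically closed field of characteristic `0`. For a smooth projective curve `Y` over `k` and a divisor
`D` of degree `m ≠ 0` on `Y` let `GS_D(Y)` be `m ^ 2` times the modified diagonal cycle of Gross and Schoen,
`m ^ 2 Δ - m (Δ_12 × D + Δ_13 × D + Δ_23 × D) + Y × D × D + D × Y × D + D × D × Y`, a homologically trivial cycle on `Y ^ 3`
(`GSX D` in `CH_1(Y ^ 3)`).

Let `X` be a smooth projective curve over `k` (with the function field `L`) over a hyperbolic orbifold of genus `0` or `1`: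
* (`Hyp`) there are a nonconstant map `t : X → ℙ¹`, a finite set `S` of points of `ℙ¹` and numbers
  `n_p ≥ 2` for `p` in `S`, with `∑ (1 - 1 / n_p) > 2`, such that `n_p` divides all ramification indices of `t` over `p`, or
* (`OrbE`) there are a nonconstant map from `X` to an elliptic curve and `m ≥ 2` which divides all its ramification indices
  over the origin.

Then (`Virt`) `X` has a finite UNRAMIFIED covering `X'` with the following property: on EVERY smooth projective curve `Y`
over `k` with a nonconstant map to `X'` the cycle `GS_D(Y)` has infinite order in `CH_1(Y ^ 3)` for EVERY divisor `D` of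
degree `≠ 0` (and there are divisors of degree `1`).

For a Galois covering `X → ℙ¹` with the ramification indices `n_p` the condition `∑ (1 - 1 / n_p) > 2` says that the genus of
`X` is at least `2` (Riemann-Hurwitz); so `Hyp` or `OrbE` holds for all curves `X` of genus at least `2` with a group `G` of
automorphisms such that `X / G` has genus `0` or `1` (all hyperelliptic curves, where the cycle of `X` itself, for a
Weierstrass point as the base point, is torsion; all cyclic coverings of `ℙ¹`, all Fermat, Hurwitz, modular curves `X(N)`, ... of
genus at least `2`), and for all curves with a nonconstant map to one of these.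
-/

namespace Pool.Agent.Results.MP_29b22a_nt.VirtualGrossSchoen

open Pool.Agent.LibCHd (FunF)
open Pool.Agent.LibVT36 (Virt OrbE)
open Pool.Agent.LibRF77 (Hyp virt3)

theorem result (k : Type) [Field k] [IsAlgClosed k] [CharZero k] (L : Type) [Field L] [Algebra k L] (hL : FunF k 1 L)
    (h : Hyp k L ∨ OrbE k L) : Virt k L := virt3 hL h

end Pool.Agent.Results.MP_29b22a_nt.VirtualGrossSchoen
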